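import Pool.Agent.Work.MP_db9399_iv_helper38.RX1

/-!
# MP_db9399, all scales: REC core (helper38), recolouring of T-edges by descent

`Gr` coloured graph, `T` its recolourable edges, `sd v` side of `v` (of a piece), `op s` opposite side.
`U s b`: number of vertices of the side `s` with the colour `b`, plus an offset `δ s b`. Need of the
side `s`: `nd s b = U (op s) b - U s b`. A step gives an edge `v w` the colour `b` free at both ends, with
`x = nd (sd v) b`, `x' = nd (sd w) b` both above `K`, if the needs of the old colour are at most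
`(x + x') / 4`. The sum of the squares of the needs falls. At every side a unit of need moves from a height
`≥ K` to some other height (`phi`).
-/

set_option autoImplicit false

namespace Pool.Agent.Work.MP_db9399_rec_helper38

open Finset Classical
open Pool.Agent.Work.MP_db9399_all (nb)
open Pool.Agent.Work.MP_db9399_xf (Ft)
open Pool.Agent.Work.MP_db9399_iv_helper38 (mem_nb mem_Ft)

universe u w

/-- the situation -/
structure Sit (V : Type u) (σ : Type w) where
  Gr : SimpleGraph V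
  T : SimpleGraph V
  N : ℕ
  K : ℕ
  al : V → ℕ → Prop
  In : V → Prop
  sd : V → σ
  op : σ → σ
  δ : σ → ℕ → ℕ

section
variable {V : Type u} {σ : Type w} [Fintype V]

structure Sit.Ok (R : Sit V σ) : Prop where
  TG : ∀ v w, R.T.Adj v w → R.Gr.Adj v w
  Ti : ∀ v w, R.T.Adj v w → R.In v ∧ R.In w ∧ R.sd v ≠ R.op (R.sd w)
  oo : ∀ s, R.op (R.op s) = s
  on : ∀ s, R.op s ≠ s
  K4 : 4 ≤ R.K

/-- number of the vertices of the side `s` with the colour `b`, with offset -/
noncomputable def Sit.U (R : Sit V σ) (t : V → V → ℕ) (s : σ) (b : ℕ) : ℕ :=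
  (univ.filter fun v => R.In v ∧ R.sd v = s ∧ b ∈ Ft R.Gr t v).card + R.δ s b

noncomputable def Sit.nd (R : Sit V σ) (t : V → V → ℕ) (s : σ) (b : ℕ) : ℕ :=
  R.U t (R.op s) b - R.U t s b

/-- colourings -/
structure Sit.Col (R : Sit V σ) (t : V → V → ℕ) : Prop where
  sym : ∀ v w, t v w = t w v
  lt : ∀ v w, R.Gr.Adj v w → t v w < R.N
  inj : ∀ v, Set.InjOn (t v) (nb R.Gr v : Set V)
  al : ∀ v b, b ∈ Ft R.Gr t v → R.al v b

/-- units of need, without the colours of `T0` below the height `K` -/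
noncomputable def Sit.rest (R : Sit V σ) (t : V → V → ℕ) (s : σ) (T0 : Finset ℕ) : ℕ :=
  ∑ b ∈ range R.N, ((R.nd t s b - (R.K - 1)) + if b ∈ T0 then 0 else min (R.nd t s b) (R.K - 1))

/-- the new colouring `t'` is not worse; `Tc s`: colours added at the side `s` -/
structure Sit.Imp (R : Sit V σ) (t t' : V → V → ℕ) (Tc : σ → Finset ℕ) : Prop where
  col : R.Col t'
  eq : ∀ p q, ¬ R.T.Adj p q → t' p q = t p q
  phi : ∀ φ : ℕ → ℕ → ℕ, (∀ b x y, x ≤ y → φ b x ≤ φ b y) →
    (∀ b c x y, R.K ≤ x + 1 → φ c (y + 1) + φ b x ≤ φ b (x + 1) + φ c y) → ∀ s,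
    ∑ b ∈ range R.N, φ b (R.nd t' s b) ≤ ∑ b ∈ range R.N, φ b (R.nd t s b)
  mx : ∀ s b, max (R.U t' s b) (R.U t' (R.op s) b) ≤ max (R.U t s b) (R.U t (R.op s) b)
  sup : ∀ L, (∀ s b, R.nd t s b ≤ L) → ∀ s b, R.nd t' s b ≤ L
  gain : ∀ p, R.In p → ∀ b ∈ Ft R.Gr t' p, b ∉ Ft R.Gr t p → b ∈ Tc (R.sd p)
  sub : ∀ s, Tc s ⊆ range R.N
  psi : ∀ s T0, (R.K - 1) * (T0 ∪ Tc s).card + R.rest t' s (T0 ∪ Tc s) ≤
    (R.K - 1) * T0.card + R.rest t s T0

/-- no step is possible -/
def Sit.Tame (R : Sit V σ) (t : V → V → ℕ) : Prop :=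
  ∀ v w b, R.T.Adj v w → b < R.N → b ∉ Ft R.Gr t v → b ∉ Ft R.Gr t w → R.al v b → R.al w b →
    R.K < R.nd t (R.sd v) b → R.K < R.nd t (R.sd w) b →
    R.nd t (R.sd v) b + R.nd t (R.sd w) b < 4 * R.nd t (R.sd v) (t v w) ∨
      R.nd t (R.sd v) b + R.nd t (R.sd w) b < 4 * R.nd t (R.sd w) (t v w)

/-- recolouring one edge -/
noncomputable def upd (t : V → V → ℕ) (v w : V) (b : ℕ) (p q : V) : ℕ :=
  if (p = v ∧ q = w) ∨ (p = w ∧ q = v) then b else t p q

omit [Fintype V] in
theorem upd_comm (t : V → V → ℕ) (v w : V) (b : ℕ) : upd t v w b = upd t w v b := by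
  funext p q
  unfold upd
  congr 1
  exact propext (Or.comm)

omit [Fintype V] in
theorem upd_ne {t : V → V → ℕ} {v w : V} {b : ℕ} {p : V} (h : p ≠ v) (h' : p ≠ w) (q : V) :
    upd t v w b p q = t p q := by
  unfold upd
  rw [if_neg]
  rintro (h1 | h1)
  · exact h h1.1
  · exact h' h1.1

theorem Ft_ne {G : SimpleGraph V} {t : V → V → ℕ} {v w : V} {b : ℕ} {p : V} (h : p ≠ v)
    (h' : p ≠ w) : Ft G (upd t v w b) p = Ft G t p := by
  ext a
  rw [mem_Ft, mem_Ft]
  simp only [upd_ne h h']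

/-- the colours at `v` -/
theorem Ft_upd {G : SimpleGraph V} {t : V → V → ℕ} {v w : V} {b a : ℕ} (hne : v ≠ w)
    (hvw : G.Adj v w) (hinj : Set.InjOn (t v) (nb G v : Set V)) :
    a ∈ Ft G (upd t v w b) v ↔ a = b ∨ (a ∈ Ft G t v ∧ a ≠ t v w) := by
  rw [mem_Ft, mem_Ft]
  constructor
  · rintro ⟨q, hq, h⟩
    by_cases hqw : q = w
    · left
      rw [← h, hqw]
      unfold upd
      rw [if_pos (Or.inl ⟨rfl, rfl⟩)]
    · right
      have h1 : upd t v w b v q = t v q := by
        unfold upd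
        rw [if_neg]
        rintro (h1 | h1)
        · exact hqw h1.2
        · exact hne h1.1
      rw [h1] at h
      refine ⟨⟨q, hq, h⟩, ?_⟩
      rw [← h]
      intro h2
      exact hqw (hinj (mem_nb.2 hq) (mem_nb.2 hvw) h2)
  · rintro (rfl | ⟨⟨q, hq, h⟩, h'⟩)
    · refine ⟨w, hvw, ?_⟩
      unfold upd
      rw [if_pos (Or.inl ⟨rfl, rfl⟩)]
    · refine ⟨q, hq, ?_⟩
      unfold upd
      rw [if_neg]
      · exact h
      · rintro (h1 | h1)
        · exact h' (by rw [← h, h1.2])
        · exact hne h1.1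

/-- number of the ends in the side `s` -/
noncomputable def gg (R : Sit V σ) (v w : V) (s : σ) : ℕ :=
  (if R.sd v = s then 1 else 0) + (if R.sd w = s then 1 else 0)

theorem card_split (P : V → Prop) [DecidablePred P] {v w : V} (hne : v ≠ w) :
    (univ.filter P).card = ((univ.filter fun p => P p ∧ p ≠ v ∧ p ≠ w).card) +
      ((if P v then 1 else 0) + (if P w then 1 else 0)) := by
  have h1 : univ.filter P = (univ.filter fun p => P p ∧ p ≠ v ∧ p ≠ w) ∪
      (({v} : Finset V).filter P ∪ ({w} : Finset V).filter P) := by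
    ext p
    simp only [mem_filter, mem_univ, true_and, mem_union, mem_singleton]
    constructor
    · intro hp
      by_cases h1 : p = v
      · exact Or.inr (Or.inl ⟨h1, hp⟩)
      · by_cases h2 : p = w
        · exact Or.inr (Or.inr ⟨h2, hp⟩)
        · exact Or.inl ⟨hp, h1, h2⟩
    · rintro (h | h | h)
      · exact h.1
      · exact h.2
      · exact h.2
  have h2 : ∀ u : V, (({u} : Finset V).filter P).card = if P u then 1 else 0 := by
    intro u
    rw [filter_singleton]
    split_ifs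
    · exact card_singleton _
    · exact card_empty
  rw [h1, card_union_of_disjoint, card_union_of_disjoint, h2, h2]
  · rw [disjoint_left]
    intro p hp hp'
    simp only [mem_filter, mem_singleton] at hp hp'
    exact hne (hp.1.symm.trans hp'.1)
  · rw [disjoint_left]
    intro p hp hp'
    simp only [mem_filter, mem_univ, true_and, mem_union, mem_singleton] at hp hp'
    rcases hp' with h | h
    · exact hp.2.1 h.1
    · exact hp.2.2 h.1

section step
variable {R : Sit V σ} {t : V → V → ℕ} {v w : V} {b : ℕ}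

theorem U_b (hR : R.Ok) (hc : R.Col t) (hT : R.T.Adj v w)
    (hv : b ∉ Ft R.Gr t v) (hw : b ∉ Ft R.Gr t w) (s : σ) :
    R.U (upd t v w b) s b = R.U t s b + gg R v w s := by
  have hne : v ≠ w := hT.ne
  have hG := hR.TG v w hT
  obtain ⟨i1, i2, _⟩ := hR.Ti v w hT
  unfold Sit.U
  rw [card_split _ hne, card_split (fun p => R.In p ∧ R.sd p = s ∧ b ∈ Ft R.Gr t p) hne]
  have e1 : (univ.filter fun p => (R.In p ∧ R.sd p = s ∧ b ∈ Ft R.Gr (upd t v w b) p) ∧
      p ≠ v ∧ p ≠ w) = univ.filter fun p => (R.In p ∧ R.sd p = s ∧ b ∈ Ft R.Gr t p) ∧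
      p ≠ v ∧ p ≠ w := by
    refine filter_congr fun p _ => ?_
    constructor
    · rintro ⟨h, h1, h2⟩
      rw [Ft_ne h1 h2] at h
      exact ⟨h, h1, h2⟩
    · rintro ⟨h, h1, h2⟩
      rw [← Ft_ne (b := b) h1 h2] at h
      exact ⟨h, h1, h2⟩
  have e2 : b ∈ Ft R.Gr (upd t v w b) v := (Ft_upd hne hG (hc.inj v)).2 (Or.inl rfl)
  have e3 : b ∈ Ft R.Gr (upd t v w b) w := by
    rw [upd_comm]
    exact (Ft_upd hne.symm hG.symm (hc.inj w)).2 (Or.inl rfl)
  rw [e1]
  unfold gg
  simp only [i1, i2, e2, e3, hv, hw, true_and, and_true, and_false, if_false]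
  omega

theorem U_c (hR : R.Ok) (hc : R.Col t) (hT : R.T.Adj v w)
    (hv : b ∉ Ft R.Gr t v) (s : σ) :
    R.U (upd t v w b) s (t v w) + gg R v w s = R.U t s (t v w) := by
  have hne : v ≠ w := hT.ne
  have hG := hR.TG v w hT
  obtain ⟨i1, i2, _⟩ := hR.Ti v w hT
  have hcb : t v w ≠ b := fun h => hv (mem_Ft.2 ⟨w, hG, h⟩)
  unfold Sit.U
  rw [card_split _ hne, card_split (fun p => R.In p ∧ R.sd p = s ∧ t v w ∈ Ft R.Gr t p) hne]
  have e1 : (univ.filter fun p => (R.In p ∧ R.sd p = s ∧ t v w ∈ Ft R.Gr (upd t v w b) p) ∧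
      p ≠ v ∧ p ≠ w) = univ.filter fun p => (R.In p ∧ R.sd p = s ∧ t v w ∈ Ft R.Gr t p) ∧
      p ≠ v ∧ p ≠ w := by
    refine filter_congr fun p _ => ?_
    constructor
    · rintro ⟨h, h1, h2⟩
      rw [Ft_ne h1 h2] at h
      exact ⟨h, h1, h2⟩
    · rintro ⟨h, h1, h2⟩
      rw [← Ft_ne (b := b) h1 h2] at h
      exact ⟨h, h1, h2⟩
  have e2 : t v w ∉ Ft R.Gr (upd t v w b) v := fun h => by
    rcases (Ft_upd hne hG (hc.inj v)).1 h with h1 | h1
    · exact hcb h1
    · exact h1.2 rfl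
  have e3 : t v w ∉ Ft R.Gr (upd t v w b) w := fun h => by
    rw [upd_comm] at h
    rcases (Ft_upd hne.symm hG.symm (hc.inj w)).1 h with h1 | h1
    · exact hcb h1
    · exact h1.2 (hc.sym v w)
  have e4 : t v w ∈ Ft R.Gr t v := mem_Ft.2 ⟨w, hG, rfl⟩
  have e5 : t v w ∈ Ft R.Gr t w := mem_Ft.2 ⟨v, hG.symm, hc.sym w v⟩
  rw [e1]
  unfold gg
  simp only [i1, i2, e2, e3, e4, e5, true_and, and_true, and_false, if_false]
  omega

theorem U_a (hR : R.Ok) (hc : R.Col t) (hT : R.T.Adj v w) {a : ℕ} (ha : a ≠ b) (ha' : a ≠ t v w)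
    (s : σ) : R.U (upd t v w b) s a = R.U t s a := by
  have hne : v ≠ w := hT.ne
  have hG := hR.TG v w hT
  unfold Sit.U
  congr 2
  refine filter_congr fun p _ => ?_
  have : a ∈ Ft R.Gr (upd t v w b) p ↔ a ∈ Ft R.Gr t p := by
    by_cases h1 : p = v
    · rw [h1, Ft_upd hne hG (hc.inj v)]
      tauto
    · by_cases h2 : p = w
      · rw [h2, upd_comm, Ft_upd hne.symm hG.symm (hc.inj w), ← hc.sym v w]
        tauto
      · rw [Ft_ne h1 h2]
  rw [this]

theorem col_upd (hR : R.Ok) (hc : R.Col t) (hT : R.T.Adj v w) (hb : b < R.N)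
    (hv : b ∉ Ft R.Gr t v) (hw : b ∉ Ft R.Gr t w) (av : R.al v b) (aw : R.al w b) :
    R.Col (upd t v w b) := by
  have hne : v ≠ w := hT.ne
  have hG := hR.TG v w hT
  have key : ∀ {v w : V}, v ≠ w → R.Gr.Adj v w → b ∉ Ft R.Gr t v →
      Set.InjOn (upd t v w b v) (nb R.Gr v : Set V) := by
    intro v w hne hG hv q hq q' hq' he
    have h1 : ∀ q, q ≠ w → upd t v w b v q = t v q := by
      intro q hqw
      unfold upd
      rw [if_neg]
      rintro (h1 | h1)
      · exact hqw h1.2
      · exact hne h1.1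
    have h2 : upd t v w b v w = b := by
      unfold upd
      rw [if_pos (Or.inl ⟨rfl, rfl⟩)]
    by_cases e1 : q = w
    · by_cases e2 : q' = w
      · rw [e1, e2]
      · rw [e1, h2, h1 q' e2] at he
        exact absurd (mem_Ft.2 ⟨q', mem_nb.1 hq', he.symm⟩) hv
    · by_cases e2 : q' = w
      · rw [e2, h2, h1 q e1] at he
        exact absurd (mem_Ft.2 ⟨q, mem_nb.1 hq, he⟩) hv
      · rw [h1 q e1, h1 q' e2] at he
        exact hc.inj v hq hq' he
  refine ⟨?_, ?_, ?_, ?_⟩
  · intro p q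
    unfold upd
    by_cases h : (p = v ∧ q = w) ∨ (p = w ∧ q = v)
    · rw [if_pos h, if_pos (by tauto)]
    · rw [if_neg h, if_neg (by tauto), hc.sym]
  · intro p q hpq
    unfold upd
    split_ifs
    · exact hb
    · exact hc.lt p q hpq
  · intro p
    by_cases h1 : p = v
    · rw [h1]
      exact key hne hG hv
    · by_cases h2 : p = w
      · rw [h2, upd_comm]
        exact key hne.symm hG.symm hw
      · intro q hq q' hq' he
        rw [upd_ne h1 h2, upd_ne h1 h2] at he
        exact hc.inj p hq hq' he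
  · intro p a ha
    by_cases h1 : p = v
    · rw [h1] at ha ⊢
      rcases (Ft_upd hne hG (hc.inj v)).1 ha with h3 | h3
      · rw [h3]
        exact av
      · exact hc.al v a h3.1
    · by_cases h2 : p = w
      · rw [h2, upd_comm] at ha
        rw [h2]
        rcases (Ft_upd hne.symm hG.symm (hc.inj w)).1 ha with h3 | h3
        · rw [h3]
          exact aw
        · exact hc.al w a h3.1
      · rw [Ft_ne h1 h2] at ha
        exact hc.al p a ha

/-- the sides touched by the step -/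
theorem gg_op (hR : R.Ok) (hT : R.T.Adj v w) (s : σ) :
    gg R v w s = 0 ∨ gg R v w (R.op s) = 0 := by
  obtain ⟨_, _, h⟩ := hR.Ti v w hT
  have h1 := hR.on s
  unfold gg
  by_cases a1 : R.sd v = s
  · have a2 : R.sd v ≠ R.op s := fun h' => h1 (h'.symm.trans a1)
    have a3 : R.sd w ≠ R.op s := fun h' => h (by rw [h', hR.oo, a1])
    right
    rw [if_neg a2, if_neg a3]
  · by_cases a2 : R.sd w = s
    · have a3 : R.sd w ≠ R.op s := fun h' => h1 (h'.symm.trans a2)
      have a4 : R.sd v ≠ R.op s := fun h' => h (by rw [h', a2])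
      right
      rw [if_neg a4, if_neg a3]
    · left
      rw [if_neg a1, if_neg a2]

theorem gg_le (s : σ) : gg R v w s ≤ 2 := by
  unfold gg
  split_ifs <;> omega

theorem gg_pos {s : σ} (h : gg R v w s ≠ 0) : s = R.sd v ∨ s = R.sd w := by
  unfold gg at h
  by_cases a1 : R.sd v = s
  · exact Or.inl a1.symm
  · by_cases a2 : R.sd w = s
    · exact Or.inr a2.symm
    · rw [if_neg a1, if_neg a2] at h
      exact absurd rfl h

/-- the conditions of a step -/
structure Stp (R : Sit V σ) (t : V → V → ℕ) (v w : V) (b : ℕ) : Prop where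
  hT : R.T.Adj v w
  hb : b < R.N
  hv : b ∉ Ft R.Gr t v
  hw : b ∉ Ft R.Gr t w
  av : R.al v b
  aw : R.al w b
  xv : R.K < R.nd t (R.sd v) b
  xw : R.K < R.nd t (R.sd w) b
  yv : 4 * R.nd t (R.sd v) (t v w) ≤ R.nd t (R.sd v) b + R.nd t (R.sd w) b
  yw : 4 * R.nd t (R.sd w) (t v w) ≤ R.nd t (R.sd v) b + R.nd t (R.sd w) b

/-- the needs after a step -/
theorem nd_step (hR : R.Ok) (hc : R.Col t) (hs : Stp R t v w b) (s : σ) :
    R.nd (upd t v w b) s b + gg R v w s = R.nd t s b ∧
    R.nd (upd t v w b) s (t v w) ≤ R.nd t s (t v w) + gg R v w s ∧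
    (gg R v w s ≠ 0 → R.K < R.nd t s b) ∧
    ∀ a, a ≠ b → a ≠ t v w → R.nd (upd t v w b) s a = R.nd t s a := by
  have h1 := U_b hR hc hs.hT hs.hv hs.hw s
  have h2 := U_b hR hc hs.hT hs.hv hs.hw (R.op s)
  have h3 := U_c (b := b) hR hc hs.hT hs.hv s
  have h4 := U_c (b := b) hR hc hs.hT hs.hv (R.op s)
  have h5 := gg_op hR hs.hT s
  have h6 : ∀ s, gg R v w s ≠ 0 → R.K < R.nd t s b := by
    intro s h
    rcases gg_pos h with rfl | rfl
    · exact hs.xv
    · exact hs.xw
  have h7 := gg_le (R := R) (v := v) (w := w) s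
  have h8 := gg_le (R := R) (v := v) (w := w) (R.op s)
  have h9 := h6 (R.op s)
  have h10 := h6 s
  have hK := hR.K4
  refine ⟨?_, ?_, h10, ?_⟩
  · unfold Sit.nd at h9 h10 ⊢
    rw [hR.oo] at h9
    rcases h5 with h5 | h5
    · by_cases h : gg R v w (R.op s) = 0
      · omega
      · have := h9 h
        omega
    · by_cases h : gg R v w s = 0
      · omega
      · have := h10 h
        omega
  · unfold Sit.nd
    omega
  · intro a ha ha'
    unfold Sit.nd
    rw [U_a hR hc hs.hT ha ha', U_a hR hc hs.hT ha ha']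

theorem sum_two {φ ψ : ℕ → ℕ} {N b c : ℕ} (hb : b < N) (hc : c < N) (hbc : b ≠ c)
    (h : ∀ a, a ≠ b → a ≠ c → φ a ≤ ψ a) {p q : ℕ} (h2 : φ b + φ c + p ≤ ψ b + ψ c + q) :
    ∑ a ∈ range N, φ a + p ≤ ∑ a ∈ range N, ψ a + q := by
  have e : ∀ f : ℕ → ℕ, ∑ a ∈ range N, f a = f b + (f c + ∑ a ∈ ((range N).erase b).erase c, f a) := by
    intro f
    rw [← add_sum_erase _ _ (mem_range.2 hb),
      ← add_sum_erase ((range N).erase b) _ (mem_erase.2 ⟨hbc.symm, mem_range.2 hc⟩)]
  rw [e, e]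
  have h3 : ∑ a ∈ ((range N).erase b).erase c, φ a ≤ ∑ a ∈ ((range N).erase b).erase c, ψ a := by
    refine sum_le_sum fun a ha => ?_
    rw [mem_erase, mem_erase] at ha
    exact h a ha.2.1 ha.1
  omega

omit [Fintype V] in
/-- the function of `rest` -/
theorem phi_rest (K : ℕ) (hK : 1 ≤ K) (T0 : Finset ℕ) :
    (∀ b x y, x ≤ y → ((x - (K - 1)) + if b ∈ T0 then 0 else min x (K - 1)) ≤
      ((y - (K - 1)) + if b ∈ T0 then 0 else min y (K - 1))) ∧
    ∀ b c x y, K ≤ x + 1 → (((y + 1) - (K - 1)) + if c ∈ T0 then 0 else min (y + 1) (K - 1)) +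
      ((x - (K - 1)) + if b ∈ T0 then 0 else min x (K - 1)) ≤
      (((x + 1) - (K - 1)) + if b ∈ T0 then 0 else min (x + 1) (K - 1)) +
      ((y - (K - 1)) + if c ∈ T0 then 0 else min y (K - 1)) := by
  constructor
  · intro b x y h
    split_ifs <;> omega
  · intro b c x y h
    split_ifs <;> omega

theorem rest_add (R : Sit V σ) (t : V → V → ℕ) (s : σ) (T0 : Finset ℕ) {b : ℕ} (hb : b < R.N)
    (hx : R.K ≤ R.nd t s b) :
    (R.K - 1) * (T0 ∪ {b}).card + R.rest t s (T0 ∪ {b}) ≤
      (R.K - 1) * T0.card + R.rest t s T0 := by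
  by_cases h : b ∈ T0
  · rw [union_eq_left.2 (singleton_subset_iff.2 h)]
  · have h1 : (T0 ∪ {b}).card = T0.card + 1 := by
      rw [card_union_of_disjoint (disjoint_singleton_right.2 h), card_singleton]
    have h2 : R.rest t s (T0 ∪ {b}) + (R.K - 1) = R.rest t s T0 := by
      unfold Sit.rest
      rw [← add_sum_erase _ _ (mem_range.2 hb), ← add_sum_erase (range R.N) _ (mem_range.2 hb)]
      have h3 : ∑ a ∈ (range R.N).erase b, ((R.nd t s a - (R.K - 1)) +
          if a ∈ T0 ∪ {b} then 0 else min (R.nd t s a) (R.K - 1)) =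
          ∑ a ∈ (range R.N).erase b, ((R.nd t s a - (R.K - 1)) +
          if a ∈ T0 then 0 else min (R.nd t s a) (R.K - 1)) := by
        refine sum_congr rfl fun a ha => ?_
        have h4 : a ≠ b := (mem_erase.1 ha).1
        have h5 : a ∈ T0 ∪ {b} ↔ a ∈ T0 := by
          rw [mem_union, mem_singleton]
          tauto
        simp only [h5]
      rw [h3, if_pos (mem_union_right _ (mem_singleton_self b)), if_neg h]
      omega
    rw [h1, mul_add, mul_one]
    omega

/-- a step is an improvement -/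
theorem imp_step (hR : R.Ok) (hc : R.Col t) (hs : Stp R t v w b) :
    R.Imp t (upd t v w b) (fun s => if gg R v w s = 0 then ∅ else {b}) := by
  have hG := hR.TG v w hs.hT
  have hcN : t v w < R.N := hc.lt v w hG
  have hbc : b ≠ t v w := fun h => hs.hv (mem_Ft.2 ⟨w, hG, h.symm⟩)
  have hK := hR.K4
  have hphi : ∀ φ : ℕ → ℕ → ℕ, (∀ b x y, x ≤ y → φ b x ≤ φ b y) →
      (∀ b c x y, R.K ≤ x + 1 → φ c (y + 1) + φ b x ≤ φ b (x + 1) + φ c y) → ∀ s,
      ∑ b' ∈ range R.N, φ b' (R.nd (upd t v w b) s b') ≤ ∑ b ∈ range R.N, φ b (R.nd t s b) := by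
    intro φ hm hφ s
    obtain ⟨n1, n2, n3, n4⟩ := nd_step hR hc hs s
    have := sum_two (φ := fun a => φ a (R.nd (upd t v w b) s a)) (ψ := fun a => φ a (R.nd t s a))
      (p := 0) (q := 0) hs.hb hcN hbc (fun a ha ha' => by
        show φ a (R.nd (upd t v w b) s a) ≤ φ a (R.nd t s a)
        rw [n4 a ha ha']) (by
        show φ b (R.nd (upd t v w b) s b) + φ (t v w) (R.nd (upd t v w b) s (t v w)) + 0 ≤
          φ b (R.nd t s b) + φ (t v w) (R.nd t s (t v w)) + 0
        have h1 := hm (t v w) _ _ n2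
        set k := gg R v w s with hk
        have hk2 : k ≤ 2 := gg_le s
        set x := R.nd (upd t v w b) s b with hx
        set y := R.nd t s (t v w) with hy
        rw [← n1] at n3 ⊢
        interval_cases k
        · simpa using h1
        · have h2 := hφ b (t v w) x y (by have := n3 (by norm_num); omega)
          omega
        · have h2 := hφ b (t v w) (x + 1) y (by have := n3 (by norm_num); omega)
          have h3 := hφ b (t v w) x (y + 1) (by have := n3 (by norm_num); omega)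
          have e1 : y + 1 + 1 = y + 2 := rfl
          have e2 : x + 1 + 1 = x + 2 := rfl
          rw [e1] at h3
          rw [e2] at h2
          omega)
    simpa using this
  refine ⟨col_upd hR hc hs.hT hs.hb hs.hv hs.hw hs.av hs.aw, ?_, hphi, ?_, ?_, ?_, ?_, ?_⟩
  · intro p q hpq
    unfold upd
    rw [if_neg]
    rintro (⟨rfl, rfl⟩ | ⟨rfl, rfl⟩)
    · exact hpq hs.hT
    · exact hpq hs.hT.symm
  · intro s a
    by_cases ha : a = b
    · subst ha
      have h1 := U_b hR hc hs.hT hs.hv hs.hw s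
      have h2 := U_b hR hc hs.hT hs.hv hs.hw (R.op s)
      have h5 := gg_op hR hs.hT s
      have h6 := (nd_step hR hc hs s).2.2.1
      have h7 := (nd_step hR hc hs (R.op s)).2.2.1
      have h8 := gg_le (R := R) (v := v) (w := w) s
      have h9 := gg_le (R := R) (v := v) (w := w) (R.op s)
      unfold Sit.nd at h6 h7
      rw [hR.oo] at h7
      rcases h5 with h5 | h5
      · by_cases h : gg R v w (R.op s) = 0
        · omega
        · have := h7 h
          omega
      · by_cases h : gg R v w s = 0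
        · omega
        · have := h6 h
          omega
    · by_cases ha' : a = t v w
      · subst ha'
        have h3 := U_c (b := b) hR hc hs.hT hs.hv s
        have h4 := U_c (b := b) hR hc hs.hT hs.hv (R.op s)
        omega
      · rw [U_a hR hc hs.hT ha ha', U_a hR hc hs.hT ha ha']
  · intro L hL s a
    obtain ⟨n1, n2, n3, n4⟩ := nd_step hR hc hs s
    have l0 := hL s a
    by_cases ha : a = b
    · subst ha
      omega
    · by_cases ha' : a = t v w
      · subst ha'
        have l1 := hL (R.sd v) b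
        have l2 := hL (R.sd w) b
        have l3 := hs.yv
        have l4 := hs.yw
        have l5 := hs.xv
        by_cases h : gg R v w s = 0
        · omega
        · have h8 := gg_le (R := R) (v := v) (w := w) s
          rcases gg_pos h with rfl | rfl
          · omega
          · omega
      · rw [n4 a ha ha']
        exact l0
  · intro p hp a ha ha'
    have h1 : ∀ p, gg R v w (R.sd p) ≠ 0 → b ∈ (if gg R v w (R.sd p) = 0 then ∅ else {b} :
        Finset ℕ) := by
      intro p h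
      rw [if_neg h]
      exact mem_singleton_self b
    by_cases e1 : p = v
    · rw [e1] at ha ha' ⊢
      rcases (Ft_upd hs.hT.ne hG (hc.inj v)).1 ha with h3 | h3
      · rw [h3]
        refine h1 v ?_
        unfold gg
        rw [if_pos rfl]
        omega
      · exact absurd h3.1 ha'
    · by_cases e2 : p = w
      · rw [e2] at ha ha' ⊢
        rw [upd_comm] at ha
        rcases (Ft_upd hs.hT.ne.symm hG.symm (hc.inj w)).1 ha with h3 | h3
        · rw [h3]
          refine h1 w ?_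
          unfold gg
          rw [if_pos rfl]
          omega
        · exact absurd h3.1 ha'
      · rw [Ft_ne e1 e2] at ha
        exact absurd ha ha'
  · intro s
    show (if gg R v w s = 0 then ∅ else {b} : Finset ℕ) ⊆ range R.N
    split_ifs
    · exact empty_subset _
    · exact singleton_subset_iff.2 (mem_range.2 hs.hb)
  · intro s T0
    show (R.K - 1) * (T0 ∪ (if gg R v w s = 0 then ∅ else {b} : Finset ℕ)).card +
      R.rest (upd t v w b) s (T0 ∪ (if gg R v w s = 0 then ∅ else {b} : Finset ℕ)) ≤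
      (R.K - 1) * T0.card + R.rest t s T0
    have hr : ∀ T0, R.rest (upd t v w b) s T0 ≤ R.rest t s T0 := by
      intro T0
      obtain ⟨r1, r2⟩ := phi_rest R.K (by omega) T0
      exact hphi (fun b x => (x - (R.K - 1)) + if b ∈ T0 then 0 else min x (R.K - 1)) r1 r2 s
    split_ifs with h
    · rw [union_empty]
      exact Nat.add_le_add_left (hr T0) _
    · refine (Nat.add_le_add_left (hr _) _).trans (rest_add R t s T0 hs.hb ?_)
      have := (nd_step hR hc hs s).2.2.1 h
      omega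

end step

section desc
variable [Fintype σ] {R : Sit V σ} {t : V → V → ℕ}

/-- the sum of the squares of the needs -/
noncomputable def pot (R : Sit V σ) (t : V → V → ℕ) : ℕ :=
  ∑ s : σ, ∑ a ∈ range R.N, (R.nd t s a) ^ 2

theorem sum_gg (R : Sit V σ) (v w : V) (h : σ → ℕ) :
    ∑ s : σ, gg R v w s * h s = h (R.sd v) + h (R.sd w) := by
  unfold gg
  simp only [add_mul, sum_add_distrib, ite_mul, one_mul, zero_mul, sum_ite_eq, mem_univ, if_true]

theorem pot_step (hR : R.Ok) (hc : R.Col t) {v w : V} {b : ℕ} (hs : Stp R t v w b) :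
    pot R (upd t v w b) < pot R t := by
  have hG := hR.TG v w hs.hT
  have hcN : t v w < R.N := hc.lt v w hG
  have hbc : b ≠ t v w := fun h => hs.hv (mem_Ft.2 ⟨w, hG, h.symm⟩)
  have hK := hR.K4
  have h1 : ∀ s, ∑ a ∈ range R.N, (R.nd (upd t v w b) s a) ^ 2 +
      2 * (gg R v w s * R.nd t s b) ≤ ∑ a ∈ range R.N, (R.nd t s a) ^ 2 +
      (2 * (gg R v w s * R.nd t s (t v w)) + 4 * gg R v w s) := by
    intro s
    obtain ⟨n1, n2, n3, n4⟩ := nd_step hR hc hs s
    refine sum_two (φ := fun a => (R.nd (upd t v w b) s a) ^ 2) (ψ := fun a => (R.nd t s a) ^ 2)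
      hs.hb hcN hbc (fun a ha ha' => by
        show (R.nd (upd t v w b) s a) ^ 2 ≤ (R.nd t s a) ^ 2
        rw [n4 a ha ha']) ?_
    show (R.nd (upd t v w b) s b) ^ 2 + (R.nd (upd t v w b) s (t v w)) ^ 2 +
      2 * (gg R v w s * R.nd t s b) ≤ (R.nd t s b) ^ 2 + (R.nd t s (t v w)) ^ 2 +
      (2 * (gg R v w s * R.nd t s (t v w)) + 4 * gg R v w s)
    have hk2 : gg R v w s ≤ 2 := gg_le s
    have h2 := Nat.pow_le_pow_left n2 2
    rw [← n1]
    generalize gg R v w s = k at *
    generalize R.nd (upd t v w b) s b = x at *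
    generalize R.nd t s (t v w) = y at *
    interval_cases k <;> nlinarith
  have h2 := sum_le_sum fun s (_ : s ∈ (univ : Finset σ)) => h1 s
  rw [sum_add_distrib, sum_add_distrib, sum_add_distrib, ← mul_sum, ← mul_sum, ← mul_sum,
    sum_gg R v w (fun s => R.nd t s b), sum_gg R v w (fun s => R.nd t s (t v w))] at h2
  have h3 := sum_gg R v w (fun _ => 1)
  simp only [mul_one] at h3
  rw [h3] at h2
  have e1 := hs.xv
  have e2 := hs.xw
  have e3 := hs.yv
  have e4 := hs.yw
  unfold pot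
  omega

theorem Imp.refl (hc : R.Col t) : R.Imp t t (fun _ => ∅) :=
  ⟨hc, fun _ _ _ => rfl, fun _ _ _ _ => le_rfl, fun _ _ => le_rfl, fun _ h => h,
    fun _ _ _ h h' => absurd h h', fun _ => empty_subset _, fun s T0 => by simp⟩

theorem Imp.trans {t1 t2 : V → V → ℕ} {Tc Tc' : σ → Finset ℕ} (h : R.Imp t t1 Tc)
    (h' : R.Imp t1 t2 Tc') : R.Imp t t2 (fun s => Tc s ∪ Tc' s) :=
  ⟨h'.col, fun p q hpq => (h'.eq p q hpq).trans (h.eq p q hpq),
    fun φ h1 h2 s => (h'.phi φ h1 h2 s).trans (h.phi φ h1 h2 s),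
    fun s b => (h'.mx s b).trans (h.mx s b), fun L hL => h'.sup L (h.sup L hL),
    fun p hp b hb hb' => by
      by_cases h1 : b ∈ Ft R.Gr t1 p
      · exact mem_union_left _ (h.gain p hp b h1 hb')
      · exact mem_union_right _ (h'.gain p hp b hb h1),
    fun s => union_subset (h.sub s) (h'.sub s), fun s T0 => by
      have h1 := h.psi s T0
      have h2 := h'.psi s (T0 ∪ Tc s)
      rw [union_assoc] at h2
      exact h2.trans h1⟩

/-- REC core -/
theorem rec_core (hR : R.Ok) : ∀ (n : ℕ) (t : V → V → ℕ), R.Col t → pot R t ≤ n →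
    ∃ t' Tc, R.Imp t t' Tc ∧ R.Tame t' := by
  intro n
  induction n with
  | zero =>
    intro t hc hp
    refine ⟨t, _, Imp.refl hc, ?_⟩
    intro v w b h1 h2 h3 h4 h5 h6 h7 h8
    by_contra hcon
    push Not at hcon
    have := pot_step hR hc ⟨h1, h2, h3, h4, h5, h6, h7, h8, hcon.1, hcon.2⟩
    omega
  | succ n ih =>
    intro t hc hp
    by_cases h : R.Tame t
    · exact ⟨t, _, Imp.refl hc, h⟩
    · unfold Sit.Tame at h
      push Not at h
      obtain ⟨v, w, b, h1, h2, h3, h4, h5, h6, h7, h8, h9, h10⟩ := h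
      have hs : Stp R t v w b := ⟨h1, h2, h3, h4, h5, h6, h7, h8, h9, h10⟩
      have h11 := imp_step hR hc hs
      obtain ⟨t', Tc, h12, h13⟩ := ih _ h11.col (by have := pot_step hR hc hs; omega)
      exact ⟨t', _, Imp.trans h11 h12, h13⟩

/-- REC -/
theorem rec_main (hR : R.Ok) (hc : R.Col t) : ∃ t' Tc, R.Imp t t' Tc ∧ R.Tame t' :=
  rec_core hR _ t hc le_rfl

omit [Fintype σ] in
/-- number of the added colours -/
theorem Imp.tcc {t' : V → V → ℕ} {Tc : σ → Finset ℕ} (h : R.Imp t t' Tc) (s : σ) :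
    (R.K - 1) * (Tc s).card ≤ ∑ b ∈ range R.N, R.nd t s b := by
  have h1 := h.psi s ∅
  rw [empty_union, card_empty, mul_zero, zero_add] at h1
  refine (Nat.le_add_right _ _).trans (h1.trans (le_of_eq ?_))
  unfold Sit.rest
  refine sum_congr rfl fun b _ => ?_
  rw [if_neg (notMem_empty b)]
  omega

end desc

end

end Pool.Agent.Work.MP_db9399_rec_helper38
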